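import Pool.Agent.H821R3.Field

/-!
Frame data on `S² × S²`: the six coordinate functions and the six gradient fields.
-/

open Bundle Manifold ContDiff VectorField Filter MeasureTheory Metric
open scoped Topology Real RealInnerProductSpace

noncomputable section

namespace Pool.Agent.H728R2.HO

open Pool.Agent.H821R2 Pool.Agent.H821R3

/-- Functions `f i` and vector fields `E i` with `v = ∑ i, df_i(v) E_i` for all tangent vectors. -/
structure FrameData {E : Type*} [NormedAddCommGroup E] [NormedSpace ℝ E]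
    {H : Type*} [TopologicalSpace H] (I : ModelWithCorners ℝ E H)
    (M : Type*) [TopologicalSpace M] [ChartedSpace H M] [IsManifold I ∞ M] (n : ℕ) where
  /-- the functions -/
  f : Fin n → M → ℝ
  hf : ∀ i, ContMDiff I 𝓘(ℝ, ℝ) ∞ (f i)
  /-- the fields -/
  E : Fin n → Π x : M, TangentSpace I x
  hE : ∀ i, CMDiff ∞ (T% (E i))
  repr : ∀ (x : M) (v : TangentSpace I x), ∑ i, (mvfderiv I (f i) x v) • E i x = v

/-- the standard basis vector -/
def bv (i : Fin 3) : V3 := EuclideanSpace.single i (1 : ℝ)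

/-- first component of the fields -/
def gA : Fin 6 → MM → V3 := fun i p =>
  if h : (i : ℕ) < 3 then bv ⟨i, h⟩ - ⟪bv ⟨i, h⟩, (p.1 : V3)⟫ • (p.1 : V3) else 0

/-- second component of the fields -/
def gB : Fin 6 → MM → V3 := fun i p =>
  if h : (i : ℕ) < 3 then 0 else
    bv ⟨i - 3, by omega⟩ - ⟪bv ⟨i - 3, by omega⟩, (p.2 : V3)⟫ • (p.2 : V3)

/-- the coordinate functions -/
def gf : Fin 6 → MM → ℝ := fun i p =>
  if h : (i : ℕ) < 3 then ⟪bv ⟨i, h⟩, (p.1 : V3)⟫ else ⟪bv ⟨i - 3, by omega⟩, (p.2 : V3)⟫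

theorem sm_c1' (a : V3) : ContMDiff IM 𝓘(ℝ, ℝ) ∞ (fun p : MM => ⟪a, (p.1 : V3)⟫) :=
  (innerSL ℝ a).contMDiff.comp contMDiff_P1

theorem sm_c2' (a : V3) : ContMDiff IM 𝓘(ℝ, ℝ) ∞ (fun p : MM => ⟪a, (p.2 : V3)⟫) :=
  (innerSL ℝ a).contMDiff.comp contMDiff_P2

theorem gf_smooth (i : Fin 6) : ContMDiff IM 𝓘(ℝ, ℝ) ∞ (gf i) := by
  by_cases h : (i : ℕ) < 3
  · have : gf i = fun p : MM => ⟪bv ⟨i, h⟩, (p.1 : V3)⟫ := by
      funext p; simp only [gf, h, dif_pos]
    rw [this]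
    exact sm_c1' _
  · have : gf i = fun p : MM => ⟪bv ⟨i - 3, by omega⟩, (p.2 : V3)⟫ := by
      funext p; simp only [gf, h, dif_neg, not_false_eq_true]
    rw [this]
    exact sm_c2' _

theorem gA_smooth (i : Fin 6) : ContMDiff IM 𝓘(ℝ, V3) ∞ (gA i) := by
  by_cases h : (i : ℕ) < 3
  · have : gA i = fun p : MM => bv ⟨i, h⟩ - ⟪bv ⟨i, h⟩, (p.1 : V3)⟫ • (p.1 : V3) := by
      funext p; simp only [gA, h, dif_pos]
    rw [this]
    exact contMDiff_const.sub ((sm_c1' _).smul contMDiff_P1)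
  · have : gA i = fun _ : MM => 0 := by
      funext p; simp only [gA, h, dif_neg, not_false_eq_true]
    rw [this]
    exact contMDiff_const

theorem gB_smooth (i : Fin 6) : ContMDiff IM 𝓘(ℝ, V3) ∞ (gB i) := by
  by_cases h : (i : ℕ) < 3
  · have : gB i = fun _ : MM => 0 := by
      funext p; simp only [gB, h, dif_pos]
    rw [this]
    exact contMDiff_const
  · have : gB i = fun p : MM => bv ⟨i - 3, by omega⟩ -
        ⟪bv ⟨i - 3, by omega⟩, (p.2 : V3)⟫ • (p.2 : V3) := by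
      funext p; simp only [gB, h, dif_neg, not_false_eq_true]
    rw [this]
    exact contMDiff_const.sub ((sm_c2' _).smul contMDiff_P2)

theorem tang {x : V3} (hx : ‖x‖ = 1) (a : V3) : ⟪x, a - ⟪a, x⟫ • x⟫ = 0 := by
  rw [inner_sub_right, inner_smul_right, real_inner_self_eq_norm_sq, hx, real_inner_comm a x]
  ring

theorem gA_orth (i : Fin 6) (p : MM) : ⟪(p.1 : V3), gA i p⟫ = 0 := by
  unfold gA
  split_ifs with h
  · exact tang (norm_P1 p) _
  · exact inner_zero_right _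

theorem gB_orth (i : Fin 6) (p : MM) : ⟪(p.2 : V3), gB i p⟫ = 0 := by
  unfold gB
  split_ifs with h
  · exact inner_zero_right _
  · exact tang (norm_P2 p) _

theorem exists_gE (i : Fin 6) : ∃ Z : Π p : MM, TangentSpace IM p, SmV Z ∧
    ∀ p, d1 p (Z p) = gA i p ∧ d2 p (Z p) = gB i p :=
  exists_field (gA_smooth i) (gB_smooth i) (gA_orth i) (gB_orth i)

/-- the six gradient fields -/
def gE (i : Fin 6) : Π p : MM, TangentSpace IM p := (exists_gE i).choose

theorem sm_gE (i : Fin 6) : SmV (gE i) := (exists_gE i).choose_spec.1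

theorem d1_gE (i : Fin 6) (p : MM) : d1 p (gE i p) = gA i p := ((exists_gE i).choose_spec.2 p).1

theorem d2_gE (i : Fin 6) (p : MM) : d2 p (gE i p) = gB i p := ((exists_gE i).choose_spec.2 p).2

theorem sum_bv (a x : V3) : ∑ i : Fin 3, ⟪bv i, a⟫ • (bv i - ⟪bv i, x⟫ • x) = a - ⟪x, a⟫ • x := by
  have h1 : ∑ i : Fin 3, ⟪bv i, a⟫ • bv i = a := by
    ext j
    fin_cases j <;> simp [bv, Fin.sum_univ_three, EuclideanSpace.inner_single_left]
  have h2 : ∑ i : Fin 3, ⟪bv i, a⟫ * ⟪bv i, x⟫ = ⟪x, a⟫ := by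
    simp only [bv, PiLp.inner_apply, RCLike.inner_apply]
    simp
  simp_rw [smul_sub, smul_smul, Finset.sum_sub_distrib, ← Finset.sum_smul]
  rw [h1, h2]

theorem gf_deriv (i : Fin 6) (p : MM) (v : TangentSpace IM p) :
    mvfderiv IM (gf i) p v = if h : (i : ℕ) < 3 then ⟪bv ⟨i, h⟩, d1 p v⟫
      else ⟪bv ⟨i - 3, by omega⟩, d2 p v⟫ := by
  by_cases h : (i : ℕ) < 3
  · have : gf i = fun p : MM => ⟪bv ⟨i, h⟩, (p.1 : V3)⟫ := by
      funext p; simp only [gf, h, dif_pos]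
    rw [this, dif_pos h]
    exact d1_inner _ p v
  · have : gf i = fun p : MM => ⟪bv ⟨i - 3, by omega⟩, (p.2 : V3)⟫ := by
      funext p; simp only [gf, h, dif_neg, not_false_eq_true]
    rw [this, dif_neg h]
    exact d2_inner _ p v

theorem frame_repr (p : MM) (v : TangentSpace IM p) :
    ∑ i, (mvfderiv IM (gf i) p v) • gE i p = v := by
  apply d_inj p
  · rw [map_sum]
    simp_rw [map_smul, d1_gE]
    have h6 : ∑ i : Fin 6, (mvfderiv IM (gf i) p v) • gA i p =
        ∑ i : Fin 3, ⟪bv i, d1 p v⟫ • (bv i - ⟪bv i, (p.1 : V3)⟫ • (p.1 : V3)) := by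
      rw [Fin.sum_univ_six, Fin.sum_univ_three]
      simp only [gf_deriv, gA]
      simp
    rw [h6, sum_bv, d1_orth, zero_smul, sub_zero]
  · rw [map_sum]
    simp_rw [map_smul, d2_gE]
    have h6 : ∑ i : Fin 6, (mvfderiv IM (gf i) p v) • gB i p =
        ∑ i : Fin 3, ⟪bv i, d2 p v⟫ • (bv i - ⟪bv i, (p.2 : V3)⟫ • (p.2 : V3)) := by
      rw [Fin.sum_univ_six, Fin.sum_univ_three]
      simp only [gf_deriv, gB]
      simp
    rw [h6, sum_bv, d2_orth, zero_smul, sub_zero]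

/-- Frame data on `S² × S²`. -/
def frame22 : FrameData IM MM 6 where
  f := gf
  hf := gf_smooth
  E := gE
  hE := sm_gE
  repr := frame_repr

end Pool.Agent.H728R2.HO
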